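import Pool.Agent.H59.L.S8.Y506.PV.Stm
import Pool.Agent.H59.L.S8.Y506.RG.Star
import Pool.Agent.H59.L.S8.Y445.FF.Mila
import Pool.Agent.H59.L.S8.Y665.FF.Milb

/-!
# From concentration to the functional inequality, for bodies
-/

set_option autoImplicit false

namespace Pool.Agent.Y506.PV

open MeasureTheory Set Filter Topology
open scoped ENNReal InnerProductSpace
open Pool.Agent.W695.KH (Eu EU EV VV Sm Pot Uu)
open Pool.Agent.Y506.RG

variable {n : ℕ}

theorem int_ind (K : Set (Eu (Fin n))) (hK : MeasurableSet K) (v : Eu (Fin n) → ℝ) :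
    ∫ x, v x * ind K x = ∫ x in K, v x := by
  rw [← integral_indicator hK]
  refine integral_congr_ae (Eventually.of_forall fun x => ?_)
  unfold ind
  by_cases hx : x ∈ K
  · simp [hx]
  · simp [hx]

theorem int_ind1 (K : Set (Eu (Fin n))) (hK : MeasurableSet K) :
    ∫ x, ind K x = (volume K).toReal := by
  have h1 := int_ind K hK fun _ => 1
  simp only [one_mul] at h1
  rw [h1]
  simp [Measure.real]

theorem EV_EW (K : Set (Eu (Fin n))) (hK : MeasurableSet K) (v : Eu (Fin n) → ℝ) :
    EV K v = EW (ind K) v := by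
  unfold EV EW
  rw [int_ind K hK, int_ind1 K hK]

theorem VV_VW (K : Set (Eu (Fin n))) (hK : MeasurableSet K) (v : Eu (Fin n) → ℝ) :
    VV K v = VW (ind K) v := by
  unfold VV VW
  rw [EV_EW K hK, EV_EW K hK]

theorem adm_ind (K : Set (Eu (Fin n))) (hK : MeasurableSet K) (hb : Bornology.IsBounded K)
    (hv : 0 < volume K) : Adm (ind K) := by
  have hfin : volume K ≠ ⊤ := hb.measure_lt_top.ne
  obtain ⟨R, hR⟩ := hb.exists_norm_le
  refine ⟨fun x => indicator_nonneg (fun _ _ => zero_le_one) x, ?_, ?_,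
    measurable_const.indicator hK⟩
  · have h1 : (fun x : Eu (Fin n) => (1 + ‖x‖ ^ 2) * ind K x) = K.indicator
        fun x => 1 + ‖x‖ ^ 2 := by
      funext x
      unfold ind
      by_cases hx : x ∈ K
      · simp [hx]
      · simp [hx]
    rw [h1, integrable_indicator_iff hK]
    refine Measure.integrableOn_of_bounded (M := 1 + R ^ 2) hfin
      (by fun_prop : Continuous fun x : Eu (Fin n) => 1 + ‖x‖ ^ 2).aestronglyMeasurable ?_
    refine (ae_restrict_iff' hK).mpr (Eventually.of_forall fun x hx => ?_)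
    rw [Real.norm_eq_abs, abs_of_nonneg (by positivity)]
    have h2 := hR x hx
    have := pow_le_pow_left₀ (norm_nonneg x) h2 2
    linarith
  · rw [int_ind1 K hK]
    exact ENNReal.toReal_pos hv.ne' hfin

theorem stb (hiso : S_ISO) : S_STB := by
  intro κ hκ
  refine ⟨2 / κ / Real.sqrt 1, by positivity, fun n K hK hc hint hcc => ?_⟩
  have hvol : 0 < volume K :=
    lt_of_lt_of_le (isOpen_interior.measure_pos volume hint) (measure_mono interior_subset)
  have hA := adm_ind K hK.measurableSet hK.isBounded hvol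
  obtain ⟨A, hiA⟩ := hiso n (ind K) hA
  obtain ⟨K', hK'⟩ : ∃ K' : Set (Eu (Fin n)), K' = A '' K := ⟨_, rfl⟩
  have hcp' : IsCompact K' := by rw [hK']; exact hK.image A.continuous
  have hcv' : Convex ℝ K' := by
    rw [hK']
    exact hc.linear_image A.toLinearEquiv.toLinearMap
  have hvol' : 0 < volume K' := by
    have h1 : (interior K').Nonempty := by
      obtain ⟨x, hx⟩ := hint
      have h2 : IsOpen (A '' interior K) := A.toHomeomorph.isOpenMap _ isOpen_interior
      have h3 : A '' interior K ⊆ K' := by rw [hK']; exact image_mono interior_subset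
      exact ⟨A x, interior_maximal h3 h2 ⟨x, hx, rfl⟩⟩
    exact lt_of_lt_of_le (isOpen_interior.measure_pos volume h1) (measure_mono interior_subset)
  have hA' := adm_ind K' hcp'.measurableSet hcp'.isBounded hvol'
  have hw : ∀ x, ind K x = 1 * ind K' (A (x - 0)) := by
    intro x
    rw [sub_zero, one_mul]
    unfold ind
    by_cases hx : x ∈ K
    · have : A x ∈ K' := by rw [hK']; exact ⟨x, hx, rfl⟩
      rw [indicator_of_mem hx, indicator_of_mem this]
    · have : A x ∉ K' := by
        rw [hK']
        rintro ⟨y, hy, hxy⟩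
        exact hx (A.injective hxy ▸ hy)
      rw [indicator_of_notMem hx, indicator_of_notMem this]
  have hVW : ∀ v : Eu (Fin n) → ℝ, VW (ind K) (fun x => v (A x)) = VW (ind K') v := by
    intro v
    unfold VW
    rw [EW_aff A 0 1 one_pos _ _ hw, EW_aff A 0 1 one_pos _ _ hw]
    simp only [add_zero, ContinuousLinearEquiv.apply_symm_apply]
  refine star_aff A 0 1 one_pos _ (ind K') hw hA' ?_
  refine star_of hA' 1 (2 / κ) one_pos (by positivity) ?_ ?_
  · intro θ hθ
    have h1 := hiA θ
    rw [hVW (fun z => ⟪z, θ⟫_ℝ), hθ] at h1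
    have h2 : (fun z : Eu (Fin n) => ⟪θ, z⟫_ℝ) = fun z => ⟪z, θ⟫_ℝ := by
      funext z
      rw [real_inner_comm]
    rw [h2, h1]
    norm_num
  · intro g L' M' hg hb h5
    have hl : Pool.Agent.Y506.FF.LCon K' κ (1 / 25) := by
      intro v hv hv1 hvl
      rw [VV_VW K' hcp'.measurableSet, ← hVW]
      refine hcc n le_rfl A.toLinearEquiv.toLinearMap 1 one_pos ?_ v hv hv1 ?_
      · intro θ hθ
        have h1 := hiA θ
        rw [hθ] at h1
        have h2 : VW (ind K) (fun x => ⟪A.toLinearEquiv.toLinearMap x, θ⟫_ℝ) =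
          VW (ind K) (fun x => ⟪A x, θ⟫_ℝ) := rfl
        rw [h2, h1]
        norm_num
      · intro y
        rw [Real.sqrt_one, div_one]
        exact hvl y
    have key := Pool.Agent.Y665.FF.milb Pool.Agent.Y445.FF.mila' (Fin n) K' hcp' hcv' hvol'
      (1 / 25) κ (by norm_num) hκ hl g L' M' hg hb (by
        rw [VV_VW K' hcp'.measurableSet]
        linarith)
    rw [VV_VW K' hcp'.measurableSet, EV_EW K' hcp'.measurableSet] at key
    exact key

end Pool.Agent.Y506.PV
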