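import Pool.Agent.H59.L.S8.Y506.PV.Cls
import Pool.Agent.H59.L.S8.Y506.RG.All

/-!
# Images of bodies: assembly
-/

set_option autoImplicit false

namespace Pool.Agent.Y506.PV

open MeasureTheory Set Filter Topology
open scoped ENNReal InnerProductSpace
open Pool.Agent.W695.KH (Eu EU EV VV Sm Pot Uu)
open Pool.Agent.Y506.RG

/-- translates -/
theorem star_trans {n : ℕ} {c : ℝ} (K : Set (Eu (Fin n))) (x0 : Eu (Fin n)) (hA : Adm (ind K))
    (h : Star c (ind K)) : Star c (ind ((fun y => y + x0) '' K)) := by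
  refine star_aff (ContinuousLinearEquiv.refl ℝ (Eu (Fin n))) x0 1 one_pos _ (ind K) ?_ hA h
  intro x
  rw [one_mul, ContinuousLinearEquiv.refl_apply]
  unfold ind
  by_cases hx : x ∈ (fun y => y + x0) '' K
  · obtain ⟨y, hy, rfl⟩ := hx
    have h1 : y + x0 - x0 = y := add_sub_cancel_right y x0
    rw [indicator_of_mem (mem_image_of_mem _ hy)]
    simp only [h1]
    rw [indicator_of_mem hy]
  · have : x - x0 ∉ K := fun h => hx ⟨x - x0, h, sub_add_cancel x x0⟩
    rw [indicator_of_notMem hx, indicator_of_notMem this]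

theorem pm_ind {n : ℕ} (K : Set (Eu (Fin n))) (hK : MeasurableSet K) :
    pm (ind K) = (volume K)⁻¹ • volume.restrict K := by
  unfold pm
  have h3 : ∀ x, ENNReal.ofReal (ind K x) = K.indicator 1 x := by
    intro x
    unfold ind
    by_cases hx : x ∈ K
    · rw [indicator_of_mem hx, indicator_of_mem hx, ENNReal.ofReal_one]
      rfl
    · rw [indicator_of_notMem hx, indicator_of_notMem hx, ENNReal.ofReal_zero]
  simp only [h3]
  rw [lintegral_indicator_one hK, withDensity_indicator_one hK]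

section

variable (hCCL : S_CCL) (hPHI : S_PHI) (hRAD : S_RAD) (hPRJ : S_PRJ) (hDEN : S_DEN)
  (hCMP : S_CMP) (hFAC : S_FAC) (hSTB : S_STB) (hISO : S_ISO)

include hCCL hPHI hRAD hPRJ hDEN hCMP hFAC hSTB hISO

/-- polytopes with few vertices -/
theorem star_vert (hVERT : S_VERT) (q : ℕ) : ∃ c : ℝ, 0 < c ∧
    ∀ (n N : ℕ) (x : Fin N → Eu (Fin n)), 1 ≤ n → N ≤ n + q →
    (interior (convexHull ℝ (range x))).Nonempty →
    IsCompact (convexHull ℝ (range x)) ∧ Star c (ind (convexHull ℝ (range x))) := by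
  obtain ⟨c, hc, H⟩ := star_img hCCL hPHI hRAD hPRJ hDEN hCMP hFAC hSTB hISO 1 q 0 1 le_rfl
  refine ⟨c, hc, fun n N x hn hN hint => ?_⟩
  rcases N with _ | M
  · exfalso
    have h1 : range x = ∅ := range_eq_empty x
    rw [h1, convexHull_empty, interior_empty] at hint
    exact not_nonempty_empty hint
  obtain ⟨A, v, I, hA, hI1, hI2, hb, hi, he⟩ := hVERT n M x hint
  obtain ⟨h1, h2, h3, h4⟩ := H n M _ A hn (by omega) ⟨hb, hi, Or.inl ⟨M + 1, le_rfl, v,
    I, hI1, hI2, rfl⟩⟩ hA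
  have he2 : convexHull ℝ (range x) = (fun y => y + x 0) ''
      (A '' {y : Eu (Fin M) | ∀ i, ⟪v i, y⟫_ℝ ∈ I i}) := by
    rw [he, image_image]
  rw [he2]
  refine ⟨h1.image (by fun_prop), star_trans _ _ ?_ h4⟩
  exact adm_ind _ h1.measurableSet h1.isBounded (vol_pos h3)

/-- symmetric polytopes with few vertices -/
theorem star_verts (hVERTS : S_VERTS) (q : ℕ) : ∃ c : ℝ, 0 < c ∧
    ∀ (n N : ℕ) (x : Fin N → Eu (Fin n)), 1 ≤ n → N ≤ n + q →
    (interior (convexHull ℝ (range x ∪ range fun i => -x i))).Nonempty →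
    IsCompact (convexHull ℝ (range x ∪ range fun i => -x i)) ∧
      Star c (ind (convexHull ℝ (range x ∪ range fun i => -x i))) := by
  obtain ⟨c, hc, H⟩ := star_img hCCL hPHI hRAD hPRJ hDEN hCMP hFAC hSTB hISO 0 q 0 1 le_rfl
  refine ⟨c, hc, fun n N x hn hN hint => ?_⟩
  obtain ⟨A, v, a, b, hA, hb, hi, he⟩ := hVERTS n N x hint
  obtain ⟨h1, h2, h3, h4⟩ := H n N _ A hn hN ⟨hb, hi, Or.inr (Or.inl ⟨N, le_rfl, v,
    a, b, rfl⟩)⟩ hA
  rw [he]
  exact ⟨h1, h4⟩

end

end Pool.Agent.Y506.PV
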