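import Pool.Agent.H59.L.S8.Y506.PV.Bad
import Pool.Agent.H59.L.S8.Y506.RG.Gd

/-!
# The concentration property of products of ridge functions
-/

set_option autoImplicit false

namespace Pool.Agent.Y506.PV

open MeasureTheory Set Filter Topology
open scoped ENNReal InnerProductSpace
open Pool.Agent.W695.KH (Eu EU EV VV Sm Pot Uu)
open Pool.Agent.Y506.FF (Pair mat pw prj exists_coord coord_cont sum_pw pw_nonneg adj adj_apply
  adj_norm adj_le push lip_of)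
open Pool.Agent.Y506.RG

variable {n : ℕ}

/-- concentration -/
theorem concD {ι : Type} [Fintype ι] {d : ℕ} {C : ℝ} (f : ι → ℝ → ℝ) (hf : PD C f)
    (L : Eu (Fin (n + 1)) →ₗᵢ[ℝ] Eu ι) (M : Eu (Fin d) →ₗᵢ[ℝ] Eu ι)
    (hA : Adm (w0 f L)) (he : ENNReal.ofReal (∫ x, w0 f L x) = gR f L M 0)
    (v : Eu (Fin (n + 1)) → ℝ) (hv : Continuous v) (hv1 : ∀ x, |v x| ≤ 1) (m : ℝ) (hm : |m| ≤ 1)
    (δ : ℝ) (hδ : 0 < δ)
    (hb : ∫⁻ x in {x | Real.sqrt (δ / 2) ≤ |v x - m|}, rr f (L x) ≤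
      gR f L M 0 * ENNReal.ofReal (δ / 8)) :
    VW (w0 f L) v ≤ δ := by
  have hf0 : ∀ i s, 0 ≤ f i s := fun i s => ((hf.nd i).pos s).le
  obtain ⟨η, hη⟩ : ∃ η : ℝ, η = Real.sqrt (δ / 2) := ⟨_, rfl⟩
  have hη0 : 0 < η := by rw [hη]; positivity
  have hη2 : η ^ 2 = δ / 2 := by rw [hη, Real.sq_sqrt (by positivity)]
  obtain ⟨B, hB⟩ : ∃ B : Set (Eu (Fin (n + 1))), B = {x | η ≤ |v x - m|} := ⟨_, rfl⟩
  have hBm : MeasurableSet B := by
    rw [hB]
    exact (isClosed_le continuous_const ((hv.sub continuous_const).abs)).measurableSet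
  rw [← hη, ← hB] at hb
  have hvm := hv.measurable
  have i1 := hA.bdd v hvm 1 hv1
  have i2 := hA.bdd (fun x => v x ^ 2) (hvm.pow_const 2) 1 (fun x => by
    rw [abs_of_nonneg (sq_nonneg _), ← sq_abs]
    nlinarith [hv1 x, abs_nonneg (v x)])
  have h1 := VW_shift hA v i1 i2 m
  have h2 : VW (w0 f L) v ≤ EW (w0 f L) fun x => (v x - m) ^ 2 := by
    rw [h1]
    nlinarith [sq_nonneg (EW (w0 f L) v - m)]
  refine h2.trans ?_
  have hb2 : ∀ x, |v x - m| ≤ 2 := by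
    intro x
    have := hv1 x
    have := abs_sub (v x) m
    linarith
  have i3 : Integrable fun x => (v x - m) ^ 2 * w0 f L x := by
    refine hA.bdd (fun x => (v x - m) ^ 2) ((hvm.sub_const m).pow_const 2) 4 fun x => ?_
    rw [abs_of_nonneg (sq_nonneg _), ← sq_abs]
    nlinarith [hb2 x, abs_nonneg (v x - m)]
  have hind : Measurable (B.indicator fun _ => (4 : ℝ)) := measurable_const.indicator hBm
  have i4 : Integrable fun x => (δ / 2 + B.indicator (fun _ => (4 : ℝ)) x) * w0 f L x := by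
    refine hA.bdd (fun x => δ / 2 + B.indicator (fun _ => (4 : ℝ)) x)
      (measurable_const.add hind) (δ / 2 + 4) fun x => ?_
    by_cases hx : x ∈ B
    · rw [indicator_of_mem hx, abs_of_pos (by positivity)]
    · rw [indicator_of_notMem hx, abs_of_nonneg (by positivity)]
      linarith
  have i5 : Integrable fun x => B.indicator (fun _ => (4 : ℝ)) x * w0 f L x := by
    refine hA.bdd (fun x => B.indicator (fun _ => (4 : ℝ)) x) hind 4 fun x => ?_
    by_cases hx : x ∈ B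
    · rw [indicator_of_mem hx]; norm_num
    · rw [indicator_of_notMem hx]; norm_num
  have i6 : Integrable fun x => (δ / 2) * w0 f L x := hA.one.const_mul _
  refine (EW_mono hA _ _ i3 i4 fun x => ?_).trans ?_
  · by_cases hx : x ∈ B
    · rw [indicator_of_mem hx, ← sq_abs]
      nlinarith [abs_nonneg (v x - m), hb2 x]
    · rw [indicator_of_notMem hx, ← sq_abs]
      rw [hB, mem_ofPred_eq, not_le] at hx
      rw [← hη2, add_zero]
      exact pow_le_pow_left₀ (abs_nonneg _) hx.le 2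
  · rw [EW_add _ _ i6 i5, EW_const hA]
    have h6 : EW (w0 f L) (fun x => B.indicator (fun _ => (4 : ℝ)) x) ≤ δ / 2 := by
      unfold EW
      rw [div_le_iff₀ hA.pos]
      have e1 : ∫ x, B.indicator (fun _ => (4 : ℝ)) x * w0 f L x = 4 * ∫ x in B, w0 f L x := by
        rw [← integral_indicator hBm, ← integral_const_mul]
        refine integral_congr_ae (Eventually.of_forall fun x => ?_)
        simp only
        by_cases hx : x ∈ B
        · rw [indicator_of_mem hx, indicator_of_mem hx]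
        · rw [indicator_of_notMem hx, indicator_of_notMem hx, zero_mul, mul_zero]
      have e2 : ENNReal.ofReal (∫ x in B, w0 f L x) ≤
          ENNReal.ofReal ((∫ x, w0 f L x) * (δ / 8)) := by
        rw [ofReal_integral_eq_lintegral_ofReal hA.one.integrableOn
          (Eventually.of_forall hA.nonneg), ENNReal.ofReal_mul hA.pos.le, he]
        refine le_trans (le_of_eq ?_) hb
        exact lintegral_congr fun x => w0_ofReal f hf0 L x
      have e3 := (ENNReal.ofReal_le_ofReal_iff (mul_nonneg hA.pos.le (by positivity))).1 e2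
      rw [e1]
      linarith
    linarith

/-- composition with a linear map -/
theorem comp_lin {k : ℕ} (T : Eu (Fin n) →ₗ[ℝ] Eu (Fin k)) (R : ℝ) (hR : 0 ≤ R)
    (hT : ∀ x, ‖T x‖ ≤ R * ‖x‖) (v : Eu (Fin k) → ℝ) (hv : ContDiff ℝ 1 v) (l : ℝ)
    (hl : ∀ y, ‖fderiv ℝ v y‖ ≤ l) : ContDiff ℝ 1 (fun x => v (T x)) ∧
    ∀ x, ‖fderiv ℝ (fun x => v (T x)) x‖ ≤ l * R := by
  obtain ⟨T', hT'⟩ : ∃ T' : Eu (Fin n) →L[ℝ] Eu (Fin k), ∀ x, T' x = T x :=
    ⟨LinearMap.toContinuousLinearMap T, fun x => rfl⟩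
  have hTn : ‖T'‖ ≤ R := ContinuousLinearMap.opNorm_le_bound _ hR fun x => by
    rw [hT']
    exact hT x
  have hTe : (fun x => T x) = fun x => T' x := funext fun x => (hT' x).symm
  have hTc : ContDiff ℝ 1 fun x => T x := by
    rw [hTe]
    exact T'.contDiff
  have hl0 : 0 ≤ l := (norm_nonneg _).trans (hl 0)
  refine ⟨hv.comp hTc, fun x => ?_⟩
  have h1 : HasFDerivAt (fun x => T x) T' x := by
    rw [hTe]
    exact T'.hasFDerivAt
  have h3 : HasFDerivAt v (fderiv ℝ v (T x)) (T x) :=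
    (hv.differentiable one_ne_zero _).hasFDerivAt
  have h4 : HasFDerivAt (fun x => v (T x)) ((fderiv ℝ v (T x)).comp T') x :=
    HasFDerivAt.comp x h3 h1
  rw [h4.fderiv]
  calc ‖(fderiv ℝ v (T x)).comp T'‖
      ≤ ‖fderiv ℝ v (T x)‖ * ‖T'‖ := ContinuousLinearMap.opNorm_comp_le _ _
    _ ≤ l * R := mul_le_mul (hl _) hTn (norm_nonneg _) hl0

theorem cc_of {w : Eu (Fin n) → ℝ} (c0 l δ : ℝ) (hc0 : 0 < c0)
    (hlow : ∀ θ : Eu (Fin n), ‖θ‖ = 1 → c0 ≤ VW w fun x => ⟪θ, x⟫_ℝ)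
    (hconc : ∀ v : Eu (Fin n) → ℝ, ContDiff ℝ 1 v → (∀ x, |v x| ≤ 1) →
      (∀ x, ‖fderiv ℝ v x‖ ≤ l) → VW w v ≤ δ) : CcW (l * Real.sqrt c0) δ w := by
  intro k hk T s hs hvar v hv hv1 hvl
  have hT := norm_T w c0 hc0 hlow T s hs hvar
  obtain ⟨h1, h2⟩ := comp_lin T (Real.sqrt (s / c0)) (Real.sqrt_nonneg _) hT v hv _ hvl
  refine hconc (fun x => v (T x)) h1 (fun x => hv1 _) fun x => (h2 x).trans (le_of_eq ?_)
  rw [Real.sqrt_div hs.le]
  have h3 : Real.sqrt s ≠ 0 := (Real.sqrt_pos.2 hs).ne'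
  have h4 : Real.sqrt c0 ≠ 0 := (Real.sqrt_pos.2 hc0).ne'
  field_simp

theorem CcW.mono {κ κ' δ : ℝ} {w : Eu (Fin n) → ℝ} (hκ : κ' ≤ κ) (h : CcW κ δ w) : CcW κ' δ w := by
  intro k hk T s hs hvar v hv hv1 hvl
  exact h k hk T s hs hvar v hv hv1 fun y => (hvl y).trans
    (div_le_div_of_nonneg_right hκ (Real.sqrt_nonneg s))

theorem cc_aff {κ δ : ℝ} (A : Eu (Fin n) ≃L[ℝ] Eu (Fin n)) (x0 : Eu (Fin n)) (Z : ℝ) (hZ : 0 < Z)
    (w w1 : Eu (Fin n) → ℝ) (hw : ∀ x, w x = Z * w1 (A (x - x0))) (h1 : Adm w1)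
    (h : CcW κ δ w1) : CcW κ δ w := by
  intro k hk T s hs hvar v hv hv1 hvl
  have hVW : ∀ v : Eu (Fin n) → ℝ, VW w v = VW w1 fun z => v (A.symm z + x0) := by
    intro v
    unfold VW
    rw [EW_aff A x0 Z hZ w w1 hw, EW_aff A x0 Z hZ w w1 hw]
  obtain ⟨T', hT'⟩ : ∃ T' : Eu (Fin n) →ₗ[ℝ] Eu (Fin k), ∀ z, T' z = T (A.symm z) :=
    ⟨T.comp A.symm.toLinearEquiv.toLinearMap, fun z => rfl⟩
  have hTz : ∀ z, T (A.symm z + x0) = T' z + T x0 := by
    intro z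
    rw [map_add, hT']
  have hTc : Continuous T' := T'.continuous_of_finiteDimensional
  have hvar' : ∀ θ : Eu (Fin k), ‖θ‖ = 1 → VW w1 (fun z => ⟪T' z, θ⟫_ℝ) ≤ s := by
    intro θ hθ
    have h2 := hvar θ hθ
    rw [hVW] at h2
    have e1 : (fun z => ⟪T (A.symm z + x0), θ⟫_ℝ) = fun z => ⟪T' z, θ⟫_ℝ + ⟪T x0, θ⟫_ℝ := by
      funext z
      rw [hTz, inner_add_left]
    obtain ⟨T2, hT2⟩ : ∃ T2 : Eu (Fin n) →L[ℝ] Eu (Fin k), ∀ x, T2 x = T' x :=
      ⟨LinearMap.toContinuousLinearMap T', fun x => rfl⟩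
    obtain ⟨i1, i2⟩ := lin_int h1 (fun z => ⟪T' z, θ⟫_ℝ) (by
      have : Continuous fun z => ⟪T' z, θ⟫_ℝ := hTc.inner continuous_const
      exact this.measurable) (‖T2‖) (fun z => by
        refine (abs_real_inner_le_norm _ _).trans ?_
        rw [hθ, mul_one, ← hT2]
        refine (T2.le_opNorm z).trans ?_
        nlinarith [norm_nonneg T2, norm_nonneg z])
    rw [e1, VW_add_const h1 _ i1 i2] at h2
    exact h2
  have hfd : ∀ y, fderiv ℝ (fun y => v (y + T x0)) y = fderiv ℝ v (y + T x0) := fun y =>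
    fderiv_comp_add_right (T x0)
  rw [hVW]
  simp only [hTz]
  exact h k hk T' s hs hvar' (fun y => v (y + T x0)) (hv.comp (contDiff_id.add contDiff_const))
    (fun y => hv1 _) (fun y => by rw [hfd]; exact hvl _)

/-- normalised factors -/
theorem cc_nd (hMOM : S_MOMR) (hLDK : S_LDK) (hS : S_SPL2) (hE : S_EXPD) (hPSI : S_PSI)
    (hLOG : S_LOGR) (hV : S_VARR) (hTH : S_THR) (hT1 : S_T1) (hT2 : S_T2) (hONE : S_ONE)
    (δ : ℝ) (hδ : 0 < δ) (d : ℕ) : ∃ κ : ℝ, 0 < κ ∧ ∀ (ι : Type) [Fintype ι] (n : ℕ)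
      (f : ι → ℝ → ℝ),
      (∀ i, ND (f i)) → ∀ (L : Eu (Fin (n + 1)) →ₗᵢ[ℝ] Eu ι)
      (M : Eu (Fin d) →ₗᵢ[ℝ] Eu ι), Pair L M → Adm (w0 f L) ∧ CcW κ δ (w0 f L) := by
  obtain ⟨C, hC, HC⟩ := hONE
  obtain ⟨C1, hC1, H1⟩ := sec1R hMOM hLDK hS hE hPSI C hC d
  obtain ⟨l, hl, H2⟩ := badD hMOM hLDK hS hE hPSI hLOG hV hTH hT1 hT2 C hC d δ hδ
  have hC10 : 0 < C1 := by linarith
  refine ⟨l * Real.sqrt (1 / (32 * C1 ^ 2)), by positivity, fun ι _ n f hnd L M hP => ?_⟩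
  have hf : PD C f := ⟨hnd, fun i => HC (f i) (hnd i)⟩
  obtain ⟨v1, v2, HP1⟩ := H1 ι n f hf L M hP
  obtain ⟨hA, he⟩ := admS f hf L M hC1 v1 v2 HP1
  refine ⟨hA, cc_of (1 / (32 * C1 ^ 2)) l δ (by positivity) ?_ ?_⟩
  · intro θ hθ
    obtain ⟨P, hPP⟩ := HP1 θ hθ
    exact lowR f hf L M hC1 hA he θ P hPP
  · intro v hv hv1 hvl
    obtain ⟨m, hm, hbad⟩ := H2 ι n f hf L M hP v hv hv1 hvl
    exact concD f hf L M hA he v hv.continuous hv1 m hm δ hδ hbad

/-- smooth factors -/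
theorem cc_gd (hMOM : S_MOMR) (hLDK : S_LDK) (hS : S_SPL2) (hE : S_EXPD) (hPSI : S_PSI)
    (hLOG : S_LOGR) (hV : S_VARR) (hTH : S_THR) (hT1 : S_T1) (hT2 : S_T2) (hONE : S_ONE)
    (hTI : S_TILT) (hNO : S_NORM) (δ : ℝ) (hδ : 0 < δ) (d : ℕ) : ∃ κ : ℝ, 0 < κ ∧ ∀ (n N : ℕ),
      N = n + 1 + d → ∀ (ell : Eu (Fin (n + 1)) →ₗ[ℝ] Eu (Fin N)), (∀ x, ell x = 0 → x = 0) →
      ∀ H : Fin N → ℝ → ℝ, (∀ i, GD (H i)) → CcW κ δ fun x => ∏ i, H i (ell x i) := by
  obtain ⟨κ, hκ, H0⟩ := cc_nd hMOM hLDK hS hE hPSI hLOG hV hTH hT1 hT2 hONE δ hδ d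
  refine ⟨κ, hκ, fun n N hN ell hell H hH => ?_⟩
  obtain ⟨a, x0, ha, hm⟩ := hTI (Fin N) (n + 1) ell H hH
  choose σ z f hσ hz hnd hfz hpot using fun i => hNO (H i) (hH i) (a i) (ell x0 i) (hm i)
  let Q : Eu (Fin (n + 1)) →ₗ[ℝ] Eu (Fin N) :=
    { toFun := fun x => WithLp.toLp 2 fun i => ell x i / σ i
      map_add' := fun x y => by
        ext i
        simp [add_div]
      map_smul' := fun c x => by
        ext i
        simp [mul_div_assoc] }
  have hQi : ∀ x i, Q x i = ell x i / σ i := fun x i => rfl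
  have hker : ∀ x, Q x = 0 → x = 0 := by
    intro x hx
    refine hell x ?_
    ext i
    have h1 : Q x i = 0 := by rw [hx]; rfl
    rw [hQi, div_eq_zero_iff] at h1
    rcases h1 with h1 | h1
    · exact h1
    · exact absurd h1 (hσ i).ne'
  have hinj : Function.Injective Q := by
    intro x y hxy
    have := hker (x - y) (by rw [map_sub, hxy, sub_self])
    exact sub_eq_zero.1 this
  obtain ⟨T, hT⟩ := Pool.Agent.Y506.KS.exists_T Q hinj
  let L : Eu (Fin (n + 1)) →ₗᵢ[ℝ] Eu (Fin N) :=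
    { toLinearMap := Q.comp T.symm.toLinearEquiv.toLinearMap
      norm_map' := fun x => by
        have h1 := hT (T.symm x)
        rw [ContinuousLinearEquiv.apply_symm_apply] at h1
        rw [h1]
        rfl }
  have hL : ∀ x, L x = Q (T.symm x) := fun x => rfl
  obtain ⟨M, hP⟩ := Pool.Agent.Y67.FF.cpl (Fin N) (n + 1) d L (by rw [Fintype.card_fin]; omega)
  obtain ⟨hA, hst⟩ := H0 (Fin N) n f hnd L M hP
  refine cc_aff T x0 (∏ i, z i) (Finset.prod_pos fun i _ => hz i) _ (w0 f L) ?_ hA hst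
  intro x
  have h1 : ∏ i, H i (ell x i) = ∏ i, (H i (ell x i) * Real.exp (a i * ell x i)) := by
    rw [Finset.prod_mul_distrib, ← Real.exp_sum, ha x, Real.exp_zero, mul_one]
  rw [h1]
  unfold w0
  rw [← Finset.prod_mul_distrib]
  refine Finset.prod_congr rfl fun i _ => ?_
  rw [hfz i, hL, ContinuousLinearEquiv.symm_apply_apply, hQi, map_sub]
  rfl

theorem min_const' (P : ℕ → ℝ → Prop) (h : ∀ d, ∃ c, 0 < c ∧ P d c)
    (hmono : ∀ d c c', c' ≤ c → P d c → P d c') (q : ℕ) :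
    ∃ c, 0 < c ∧ ∀ d, d ≤ q → P d c := by
  induction q with
  | zero =>
    obtain ⟨c, hc, H⟩ := h 0
    exact ⟨c, hc, fun d h1 => by
      have : d = 0 := by omega
      rw [this]
      exact H⟩
  | succ q ih =>
    obtain ⟨c, hc, H⟩ := ih
    obtain ⟨c', hc', H'⟩ := h (q + 1)
    refine ⟨min c c', lt_min hc hc', fun d h2 => ?_⟩
    rcases Nat.lt_or_ge q d with h3 | h3
    · have : d = q + 1 := by omega
      rw [this]
      exact hmono _ _ _ (min_le_right _ _) H'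
    · exact hmono _ _ _ (min_le_left _ _) (H d h3)

/-- general weights -/
theorem cc_lc (hMOM : S_MOMR) (hLDK : S_LDK) (hS : S_SPL2) (hE : S_EXPD) (hPSI : S_PSI)
    (hLOG : S_LOGR) (hV : S_VARR) (hTH : S_THR) (hT1 : S_T1) (hT2 : S_T2) (hONE : S_ONE)
    (hTI : S_TILT) (hNO : S_NORM) (hAP : S_CAPX) (q : ℕ) (δ : ℝ) (hδ : 0 < δ) :
      ∃ κ : ℝ, 0 < κ ∧
      ∀ (n N : ℕ), 1 ≤ n → N ≤ n + q → ∀ (ell : Eu (Fin n) →ₗ[ℝ] Eu (Fin N)),
      (∀ x, ell x = 0 → x = 0) → ∀ h : Fin N → ℝ → ℝ, (∀ i, LC1 (h i)) →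
      Integrable (fun x => (1 + ‖x‖ ^ 2) * ∏ i, h i (ell x i)) →
      0 < ∫ x, ∏ i, h i (ell x i) → CcW κ δ fun x => ∏ i, h i (ell x i) := by
  obtain ⟨κ, hκ, H0⟩ := min_const' (fun d κ => ∀ (n N : ℕ),
      N = n + 1 + d → ∀ (ell : Eu (Fin (n + 1)) →ₗ[ℝ] Eu (Fin N)), (∀ x, ell x = 0 → x = 0) →
      ∀ H : Fin N → ℝ → ℝ, (∀ i, GD (H i)) → CcW κ δ fun x => ∏ i, H i (ell x i))
    (fun d => cc_gd hMOM hLDK hS hE hPSI hLOG hV hTH hT1 hT2 hONE hTI hNO δ hδ d)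
    (fun d c c' hcc h n N hN ell hell H hH => CcW.mono hcc (h n N hN ell hell H hH)) q
  refine ⟨κ / 4, by positivity, ?_⟩
  intro n N hn hN ell hell h hh hint hpos
  classical
  obtain ⟨m, rfl⟩ : ∃ m, n = m + 1 := ⟨n - 1, by omega⟩
  have hnN : m + 1 ≤ N := by
    have hinj : Function.Injective ell := by
      intro x y hxy
      have := hell (x - y) (by rw [map_sub, hxy, sub_self])
      exact sub_eq_zero.1 this
    have := LinearMap.finrank_le_finrank_of_injective (f := ell) hinj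
    simpa using this
  -- nonzero functionals
  let ell' : Eu (Fin (m + 1)) →ₗ[ℝ] Eu (Fin N) :=
    { toFun := fun x => WithLp.toLp 2 fun i => if (∃ y, ell y i ≠ 0) then ell x i else x 0
      map_add' := fun x y => by
        ext i
        by_cases h0 : ∃ y, ell y i ≠ 0
        · simp [h0]
        · simp [h0]
      map_smul' := fun c x => by
        ext i
        by_cases h0 : ∃ y, ell y i ≠ 0
        · simp [h0]
        · simp [h0] }
  have he1 : ∀ x i, (∃ y, ell y i ≠ 0) → ell' x i = ell x i := by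
    intro x i h0
    show (if (∃ y, ell y i ≠ 0) then ell x i else x 0) = ell x i
    rw [if_pos h0]
  have he2 : ∀ x i, (¬ ∃ y, ell y i ≠ 0) → ell' x i = x 0 := by
    intro x i h0
    show (if (∃ y, ell y i ≠ 0) then ell x i else x 0) = x 0
    rw [if_neg h0]
  obtain ⟨h', hh'⟩ : ∃ h' : Fin N → ℝ → ℝ, h' = fun i => if (∃ y, ell y i ≠ 0) then h i else
    fun _ => h i 0 := ⟨_, rfl⟩
  have hp : ∀ x, ∏ i, h i (ell x i) = ∏ i, h' i (ell' x i) := by
    intro x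
    refine Finset.prod_congr rfl fun i _ => ?_
    rw [hh']
    by_cases h0 : ∃ y, ell y i ≠ 0
    · simp only
      rw [if_pos h0, he1 x i h0]
    · simp only
      rw [if_neg h0]
      have h1 : ell x i = 0 := by
        by_contra h2
        exact h0 ⟨x, h2⟩
      rw [h1]
  have hlc' : ∀ i, LC1 (h' i) := by
    intro i
    rw [hh']
    by_cases h0 : ∃ y, ell y i ≠ 0
    · simp only
      rw [if_pos h0]
      exact hh i
    · simp only
      rw [if_neg h0]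
      refine ⟨fun _ => (hh i).nonneg 0, measurable_const, fun x y t h1 h2 => ?_⟩
      have h3 := (hh i).nonneg 0
      rcases h3.eq_or_lt with h4 | h4
      · rw [← h4, Real.zero_rpow h1.ne', mul_zero]
      · rw [← Real.rpow_add h4, sub_add_cancel, Real.rpow_one]
  simp only [hp] at hint hpos ⊢
  refine hAP N (m + 1) κ δ ell' hκ ?_ ?_ ?_ h' hlc' hint hpos
  · intro x hx
    refine hell x ?_
    ext i
    by_cases h0 : ∃ y, ell y i ≠ 0
    · rw [← he1 x i h0, hx]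
    · by_contra h2
      exact h0 ⟨x, h2⟩
  · intro i
    by_cases h0 : ∃ y, ell y i ≠ 0
    · obtain ⟨y, hy⟩ := h0
      exact ⟨y, by rw [he1 y i ⟨y, hy⟩]; exact hy⟩
    · refine ⟨EuclideanSpace.single 0 1, ?_⟩
      rw [he2 _ i h0]
      simp
  · intro H hH
    refine H0 (N - (m + 1)) (by omega) m N (by omega) ell' ?_ H hH
    intro x hx
    refine hell x ?_
    ext i
    by_cases h0 : ∃ y, ell y i ≠ 0
    · rw [← he1 x i h0, hx]
    · by_contra h2
      exact h0 ⟨x, h2⟩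

end Pool.Agent.Y506.PV
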