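import Pool.Agent.H59.L.S8.Y506.PV.Img
import Pool.Agent.H59.L.S8.Y506.KS.Pm
import Pool.Agent.H59.L.S8.Y506.KS.Bq

/-!
# The concentration property from Poincare inequalities: products of power sums
-/

set_option autoImplicit false

namespace Pool.Agent.Y506.PV

open MeasureTheory Set Filter Topology
open scoped ENNReal InnerProductSpace
open Pool.Agent.W695.KH (Eu EU EV VV Sm Pot Uu)
open Pool.Agent.Y506.RG
open Pool.Agent.Y506.KS (PoK PB CP CP_pos PB_conv PB_closed PB_int PB_sym PB_ker PB_PoK_image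
  KK Xb SB CB CB_pos KK_PoK)

theorem mean_zero {n : ℕ} {D : Set (Eu (Fin n))} (hs : ∀ x ∈ D, -x ∈ D) (θ : Eu (Fin n)) :
    EW (ind D) (fun x => ⟪θ, x⟫_ℝ) = 0 := by
  have h1 : ∫ x, ⟪θ, x⟫_ℝ * ind D x = ∫ x, ⟪θ, -x⟫_ℝ * ind D (-x) :=
    (integral_neg_eq_self (fun x => ⟪θ, x⟫_ℝ * ind D x) volume).symm
  have h2 : ∀ x, ind D (-x) = ind D x := by
    intro x
    unfold ind
    by_cases hx : x ∈ D
    · rw [indicator_of_mem hx, indicator_of_mem (hs x hx)]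
    · have : -x ∉ D := fun h => hx (by simpa using hs _ h)
      rw [indicator_of_notMem hx, indicator_of_notMem this]
  have h3 : ∫ x, ⟪θ, -x⟫_ℝ * ind D (-x) = -∫ x, ⟪θ, x⟫_ℝ * ind D x := by
    rw [← integral_neg]
    refine integral_congr_ae (Eventually.of_forall fun x => ?_)
    simp only
    rw [h2, inner_neg_right]
    ring
  rw [h3] at h1
  unfold EW
  have h4 : ∫ x, ⟪θ, x⟫_ℝ * ind D x = 0 := by linarith
  rw [h4, zero_div]

theorem cc_of_PoK (hiso : S_ISO) {n : ℕ} (K : Set (Eu (Fin n))) (hK : IsCompact K)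
    (hint : (interior K).Nonempty) (hs : ∀ x ∈ K, -x ∈ K) (k : ℝ) (hk : 0 < k)
    (h : ∀ A : Eu (Fin n) ≃L[ℝ] Eu (Fin n), PoK (A '' K) k) (δ : ℝ) (hδ : 0 < δ) :
    CcW (Real.sqrt (δ / k)) δ (ind K) := by
  have hA := adm_ind K hK.measurableSet hK.isBounded (vol_pos hint)
  obtain ⟨A, hiA⟩ := hiso n (ind K) hA
  obtain ⟨K', hK'⟩ : ∃ K' : Set (Eu (Fin n)), K' = A '' K := ⟨_, rfl⟩
  have hcp' : IsCompact K' := by rw [hK']; exact hK.image A.continuous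
  have hint' : (interior K').Nonempty := by
    rw [hK']
    exact int_image hint A.toLinearEquiv.toLinearMap A.surjective
  have hA' := adm_ind K' hcp'.measurableSet hcp'.isBounded (vol_pos hint')
  have hs' : ∀ x ∈ K', -x ∈ K' := by
    rw [hK']
    rintro _ ⟨x, hx, rfl⟩
    exact ⟨-x, hs x hx, by rw [map_neg]⟩
  have hw : ∀ x, ind K x = 1 * ind K' (A (x - 0)) := by
    intro x
    rw [sub_zero, one_mul]
    unfold ind
    by_cases hx : x ∈ K
    · have : A x ∈ K' := by rw [hK']; exact ⟨x, hx, rfl⟩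
      rw [indicator_of_mem hx, indicator_of_mem this]
    · have : A x ∉ K' := by
        rw [hK']
        rintro ⟨y, hy, hxy⟩
        exact hx (A.injective hxy ▸ hy)
      rw [indicator_of_notMem hx, indicator_of_notMem this]
  have hVW : ∀ v : Eu (Fin n) → ℝ, VW (ind K) (fun x => v (A x)) = VW (ind K') v := by
    intro v
    unfold VW
    rw [EW_aff A 0 1 one_pos _ _ hw, EW_aff A 0 1 one_pos _ _ hw]
    simp only [add_zero, ContinuousLinearEquiv.apply_symm_apply]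
  have hq : ∀ θ : Eu (Fin n), VW (ind K') (fun z => ⟪θ, z⟫_ℝ) = ‖θ‖ ^ 2 := by
    intro θ
    have h1 := hiA θ
    rw [hVW (fun z => ⟪z, θ⟫_ℝ)] at h1
    have h2 : (fun z : Eu (Fin n) => ⟪θ, z⟫_ℝ) = fun z => ⟪z, θ⟫_ℝ := by
      funext z
      rw [real_inner_comm]
    rw [h2, h1]
  have hq2 : ∀ θ : Eu (Fin n), EV K' (fun x => ⟪θ, x⟫_ℝ ^ 2) ≤ 1 * ‖θ‖ ^ 2 := by
    intro θ
    rw [EV_EW K' hcp'.measurableSet, one_mul]
    have h1 := hq θ
    unfold VW at h1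
    rw [mean_zero hs' θ] at h1
    linarith
  have hP : PoK K' k := by rw [hK']; exact h A
  refine cc_aff A 0 1 one_pos _ (ind K') hw hA' ?_
  have h5 : Real.sqrt (δ / k) = Real.sqrt (δ / k) * Real.sqrt 1 := by
    rw [Real.sqrt_one, mul_one]
  rw [h5]
  refine cc_of 1 (Real.sqrt (δ / k)) δ one_pos (fun θ hθ => ?_) fun v hv hv1 hvl => ?_
  · rw [hq, hθ]
    norm_num
  · have h6 := hP 1 one_pos hq2 v hv
    rw [VV_VW K' hcp'.measurableSet, EV_EW K' hcp'.measurableSet] at h6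
    have hfc : Continuous fun x => ‖fderiv ℝ v x‖ ^ 2 :=
      ((hv.continuous_fderiv one_ne_zero).norm).pow 2
    have hsq : Real.sqrt (δ / k) ^ 2 = δ / k := Real.sq_sqrt (by positivity)
    have hb : ∀ x, ‖fderiv ℝ v x‖ ^ 2 ≤ δ / k := by
      intro x
      rw [← hsq]
      exact pow_le_pow_left₀ (norm_nonneg _) (hvl x) 2
    have i1 : Integrable fun x => ‖fderiv ℝ v x‖ ^ 2 * ind K' x :=
      hA'.bdd _ hfc.measurable (δ / k) fun x => by
        rw [abs_of_nonneg (by positivity)]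
        exact hb x
    have i2 : Integrable fun x => (δ / k) * ind K' x := hA'.one.const_mul _
    have h7 := EW_mono hA' (fun x => ‖fderiv ℝ v x‖ ^ 2) (fun _ => δ / k) i1 i2 hb
    rw [EW_const hA'] at h7
    calc VW (ind K') v ≤ k * 1 * EW (ind K') fun x => ‖fderiv ℝ v x‖ ^ 2 := h6
      _ ≤ k * 1 * (δ / k) := mul_le_mul_of_nonneg_left h7 (by positivity)
      _ = δ := by field_simp

theorem cc_PB (hiso : S_ISO) {n M : ℕ} {k : Fin M → ℕ} (e : ∀ i, Fin (k i) → ℝ)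
    (L : ∀ i, Fin (k i) → (EuclideanSpace ℝ (Fin n) →L[ℝ] ℝ)) (hk : ∀ i, 0 < k i)
    (he : ∀ i j, 2 ≤ e i j) (q : ℕ) (hq : ∑ i, k i ≤ n + q)
    (hb : Bornology.IsBounded (PB e L)) (δ : ℝ) (hδ : 0 < δ) :
    CcW (Real.sqrt (δ / CP q)) δ (ind (PB e L)) := by
  refine cc_of_PoK hiso (PB e L)
    (Metric.isCompact_of_isClosed_isBounded (PB_closed he) hb) (PB_int he) PB_sym (CP q)
    (CP_pos q) (fun A => PB_PoK_image hk he (PB_ker he hb) q (by
      rw [Fintype.card_fin]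
      exact hq) A) δ hδ

/-- `{x | ∀ i, Q i x ∈ D i}` -/
theorem KK_sym' {n M : ℕ} {k : Fin M → ℕ} {Q : ∀ i, EuclideanSpace ℝ (Fin n) →L[ℝ] Xb k i}
    {D : ∀ i, Set (Xb k i)} (hD : ∀ i, SB (D i)) : ∀ x ∈ KK Q D, -x ∈ KK Q D := by
  intro x hx i
  rw [map_neg]
  exact (hD i).symm _ (hx i)

theorem KK_conv' {n M : ℕ} {k : Fin M → ℕ} {Q : ∀ i, EuclideanSpace ℝ (Fin n) →L[ℝ] Xb k i}
    {D : ∀ i, Set (Xb k i)} (hD : ∀ i, SB (D i)) : Convex ℝ (KK Q D) := by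
  intro x hx y hy a b ha hb hab i
  rw [map_add, map_smul, map_smul]
  exact (hD i).conv (hx i) (hy i) ha hb hab

theorem KK_closed' {n M : ℕ} {k : Fin M → ℕ} {Q : ∀ i, EuclideanSpace ℝ (Fin n) →L[ℝ] Xb k i}
    {D : ∀ i, Set (Xb k i)} (hc : ∀ i, IsClosed (D i)) : IsClosed (KK Q D) := by
  have e : KK Q D = ⋂ i, (Q i) ⁻¹' (D i) := by
    ext x
    simp [KK]
  rw [e]
  exact isClosed_iInter fun i => (hc i).preimage (Q i).continuous

theorem KK_image' {n M : ℕ} {k : Fin M → ℕ} (Q : ∀ i, EuclideanSpace ℝ (Fin n) →L[ℝ] Xb k i)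
    (D : ∀ i, Set (Xb k i)) (A : EuclideanSpace ℝ (Fin n) ≃L[ℝ] EuclideanSpace ℝ (Fin n)) :
    A '' KK Q D = KK (fun i => (Q i).comp (A.symm : EuclideanSpace ℝ (Fin n) →L[ℝ] _)) D := by
  ext y
  constructor
  · rintro ⟨x, hx, rfl⟩ i
    have h1 := hx i
    simpa using h1
  · intro hy
    refine ⟨A.symm y, fun i => ?_, A.apply_symm_apply y⟩
    have h1 := hy i
    simpa using h1

theorem KK_ker' {n M : ℕ} {k : Fin M → ℕ} {Q : ∀ i, EuclideanSpace ℝ (Fin n) →L[ℝ] Xb k i}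
    {D : ∀ i, Set (Xb k i)} (hD : ∀ i, SB (D i)) (hb : Bornology.IsBounded (KK Q D))
    (x : EuclideanSpace ℝ (Fin n)) (hx : ∀ i, Q i x = 0) : x = 0 := by
  refine Pool.Agent.Y506.KS.ker_triv hb fun c i => ?_
  rw [map_smul, hx i, smul_zero]
  obtain ⟨r, hr, hball⟩ := (hD i).ball
  exact hball (by simpa using hr)

theorem cc_KK (hiso : S_ISO) {n M : ℕ} {k : Fin M → ℕ}
    (Q : ∀ i, EuclideanSpace ℝ (Fin n) →L[ℝ] Xb k i) (D : ∀ i, Set (Xb k i))
    (hD : ∀ i, SB (D i)) (hc : ∀ i, IsClosed (D i)) (B : ℕ) (hB : ∀ i, k i ≤ B) (q : ℕ)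
    (hq : ∑ i, k i ≤ n + q) (hb : Bornology.IsBounded (KK Q D))
    (hint : (interior (KK Q D)).Nonempty) (δ : ℝ) (hδ : 0 < δ) :
    CcW (Real.sqrt (δ / CB B q)) δ (ind (KK Q D)) := by
  refine cc_of_PoK hiso (KK Q D)
    (Metric.isCompact_of_isClosed_isBounded (KK_closed' hc) hb) hint (KK_sym' hD) (CB B q)
    (CB_pos B q) (fun A => ?_) δ hδ
  rw [KK_image' Q D A]
  refine KK_PoK (fun y hy => ?_) hD B hB q (by
      rw [Fintype.card_fin]
      exact hq)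
  have h1 := KK_ker' hD hb (A.symm y) fun i => hy i
  have h2 : A (A.symm y) = A 0 := by rw [h1]
  rwa [A.apply_symm_apply, map_zero] at h2

end Pool.Agent.Y506.PV
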