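import Pool.Agent.H59.L.S8.Y506.PV.Stm

/-!
# Convex hulls of few points: statements
-/

set_option autoImplicit false

namespace Pool.Agent.Y506.PV

open MeasureTheory Set Filter Topology
open scoped ENNReal InnerProductSpace
open Pool.Agent.W695.KH (Eu)

/-- a polytope with `N + 1` vertices is the image of a simplex -/
def S_VERT : Prop := ∀ (n N : ℕ) (x : Fin (N + 1) → Eu (Fin n)),
  (interior (convexHull ℝ (range x))).Nonempty →
  ∃ (A : Eu (Fin N) →ₗ[ℝ] Eu (Fin n)) (v : Fin (N + 1) → Eu (Fin N)) (I : Fin (N + 1) → Set ℝ),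
  Function.Surjective A ∧ (∀ i, IsClosed (I i)) ∧ (∀ i, (I i).OrdConnected) ∧
  Bornology.IsBounded {y : Eu (Fin N) | ∀ i, ⟪v i, y⟫_ℝ ∈ I i} ∧
  (interior {y : Eu (Fin N) | ∀ i, ⟪v i, y⟫_ℝ ∈ I i}).Nonempty ∧
  convexHull ℝ (range x) = (fun y => A y + x 0) '' {y : Eu (Fin N) | ∀ i, ⟪v i, y⟫_ℝ ∈ I i}

/-- a symmetric polytope with `2 N` vertices is the image of a cross-polytope -/
def S_VERTS : Prop := ∀ (n N : ℕ) (x : Fin N → Eu (Fin n)),
  (interior (convexHull ℝ (range x ∪ range fun i => -x i))).Nonempty →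
  ∃ (A : Eu (Fin N) →ₗ[ℝ] Eu (Fin n)) (v : Fin N → Eu (Fin N)) (a b : Fin N → ℝ≥0∞),
  Function.Surjective A ∧ Bornology.IsBounded {y | PhS 1 v a b y ≤ 1} ∧
  (interior {y | PhS 1 v a b y ≤ 1}).Nonempty ∧
  convexHull ℝ (range x ∪ range fun i => -x i) = A '' {y | PhS 1 v a b y ≤ 1}

end Pool.Agent.Y506.PV
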